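import Mathlib

/-!
# Extremal `m`-zero free sequences over `Z_q`, `q = p ^ r`, `m = p ^ s`

Every `m`-zero free sequence of length `m q - 1` over `Z_q` is constant, equal to a unit.

Idea. Let `g = 1 + X` in `F_p[X]`. The functional `lam` (alternating sum of the first `q`
coefficients) sends `g ^ N` to `1` if `q ∣ N` and to `0` otherwise. For a set `T` of indices the
alternating sum over `Z ⊆ T` of `g ^ (e_m(Z))` equals, up to sign, the sum over all families `F` of
`m`-subsets of `T` covering `T` of the products of `g ^ (A_I) - 1`, where `A_I` is the product of the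
terms indexed by `I`. For `|T| = m (q - 1)` only partitions of `T` survive modulo `X ^ q`, and one
finds that the product of the terms indexed by `T` does not depend on `T`; hence all terms agree
modulo `p`. If all terms are `1 + p ^ j b_i`, the same computation with `|T| = m (q - p ^ j)` shows
that the sum of the `b_i` over `T` modulo `p` does not depend on `T`, so that all terms agree modulo
`p ^ (j + 1)`.
-/

set_option autoImplicit false

open Finset Polynomial

namespace Pool.Agent.Results.MP_e23efd_co.ExtremalSequences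

/-! ### The functional `lam` -/

section Lam

variable (p : ℕ) [hp : Fact p.Prime]

/-- The alternating sum of the first `q` coefficients. -/
noncomputable def lam (q : ℕ) : (ZMod p)[X] →ₗ[ZMod p] ZMod p :=
  ∑ k ∈ Finset.range q, ((-1 : ZMod p) ^ k) • Polynomial.lcoeff (ZMod p) k

theorem lam_apply (q : ℕ) (P : (ZMod p)[X]) :
    lam p q P = ∑ k ∈ Finset.range q, (-1) ^ k * P.coeff k := by
  simp [lam, LinearMap.sum_apply, LinearMap.smul_apply, Polynomial.lcoeff_apply]

theorem lam_of_dvd (q : ℕ) (P : (ZMod p)[X]) (h : X ^ q ∣ P) : lam p q P = 0 := by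
  rw [lam_apply]
  refine Finset.sum_eq_zero fun k hk => ?_
  rw [Polynomial.X_pow_dvd_iff.1 h k (Finset.mem_range.1 hk), mul_zero]

theorem lam_top (q : ℕ) (hq : 0 < q) (P : (ZMod p)[X]) :
    lam p q (X ^ (q - 1) * P) = (-1) ^ (q - 1) * P.coeff 0 := by
  rw [lam_apply, Finset.sum_eq_single (q - 1)]
  · rw [Polynomial.coeff_X_pow_mul', if_pos le_rfl, Nat.sub_self]
  · intro k hk hk2
    have := Finset.mem_range.1 hk
    rw [Polynomial.coeff_X_pow_mul', if_neg (by omega), mul_zero]
  · intro h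
    exact absurd (Finset.mem_range.2 (by omega)) h

theorem lam_small (q N : ℕ) (h : N < q) : lam p q ((1 + X) ^ N) = if N = 0 then 1 else 0 := by
  rw [lam_apply]
  have h1 : ∀ k, (-1 : ZMod p) ^ k * ((1 + X : (ZMod p)[X]) ^ N).coeff k =
      (((-1 : ℤ) ^ k * (N.choose k : ℤ) : ℤ) : ZMod p) := by
    intro k
    rw [Polynomial.coeff_one_add_X_pow]
    push_cast
    rfl
  simp_rw [h1]
  have h2 : Finset.range (N + 1) ⊆ Finset.range q := Finset.range_subset_range.2 (by omega)
  rw [← Finset.sum_subset h2, ← Int.cast_sum, Int.alternating_sum_range_choose]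
  · split_ifs <;> simp
  · intro k _ hk
    rw [Finset.mem_range, not_lt] at hk
    rw [Nat.choose_eq_zero_of_lt (by omega)]
    simp

theorem lam_shift (r N : ℕ) : lam p (p ^ r) ((1 + X) ^ (N + p ^ r)) =
    lam p (p ^ r) ((1 + X) ^ N) := by
  have : (1 + X : (ZMod p)[X]) ^ (N + p ^ r) = (1 + X) ^ N + X ^ (p ^ r) * (1 + X) ^ N := by
    rw [pow_add, add_pow_char_pow, one_pow]
    ring
  rw [this, map_add, lam_of_dvd p _ (X ^ (p ^ r) * (1 + X) ^ N) (Dvd.intro _ rfl), add_zero]

theorem lam_pow (r N : ℕ) : lam p (p ^ r) ((1 + X) ^ N) = if p ^ r ∣ N then 1 else 0 := by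
  have hq : 0 < p ^ r := pow_pos hp.out.pos r
  induction N using Nat.strong_induction_on with
  | _ N ih =>
    by_cases h : N < p ^ r
    · rw [lam_small p _ _ h]
      by_cases h0 : N = 0
      · simp [h0]
      · rw [if_neg h0, if_neg]
        exact fun hd => absurd (Nat.le_of_dvd (Nat.pos_of_ne_zero h0) hd) (by omega)
    · have e : N = (N - p ^ r) + p ^ r := by omega
      rw [e, lam_shift, ih (N - p ^ r) (by omega)]
      simp only [Nat.dvd_add_self_right]

end Lam

/-! ### Finite differences over subsets -/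

section Diff

variable {ι : Type*} [DecidableEq ι]

theorem sum_signs (U T : Finset ι) (h : U ⊆ T) :
    ∑ Z ∈ T.powerset.filter (fun Z => U ⊆ Z), (-1 : ℤ) ^ Z.card =
      if U = T then (-1) ^ T.card else 0 := by
  have h1 : T.powerset.filter (fun Z => U ⊆ Z) = Finset.Icc U T := by
    ext Z
    simp [Finset.mem_Icc, and_comm]
  rw [h1, Finset.Icc_eq_image_powerset h, Finset.sum_image]
  · have h2 : ∀ W ∈ (T \ U).powerset, (-1 : ℤ) ^ (U ∪ W).card =
        (-1) ^ U.card * (-1) ^ W.card := by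
      intro W hW
      rw [Finset.card_union_of_disjoint, pow_add]
      exact (Finset.disjoint_of_subset_right (Finset.mem_powerset.1 hW) Finset.disjoint_sdiff)
    rw [Finset.sum_congr rfl h2, ← Finset.mul_sum, Finset.sum_powerset_neg_one_pow_card]
    by_cases hUT : U = T
    · subst hUT; simp
    · rw [if_neg hUT, if_neg, mul_zero]
      intro h3
      exact hUT (Finset.Subset.antisymm h (Finset.sdiff_eq_empty_iff_subset.1 h3))
  · intro W1 hW1 W2 hW2 h3
    have d1 : Disjoint U W1 := Finset.disjoint_of_subset_right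
      (Finset.mem_powerset.1 hW1) Finset.disjoint_sdiff
    have d2 : Disjoint U W2 := Finset.disjoint_of_subset_right
      (Finset.mem_powerset.1 hW2) Finset.disjoint_sdiff
    have h4 : U ∪ W1 = U ∪ W2 := h3
    rw [← Finset.union_sdiff_cancel_left d1, h4, Finset.union_sdiff_cancel_left d2]

/-- The elementary symmetric sum over a subset. -/
def esum (m : ℕ) (a : ι → ℕ) (Z : Finset ι) : ℕ := ∑ I ∈ Z.powersetCard m, ∏ i ∈ I, a i

/-- The families of `m`-subsets of `T` covering `T`. -/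
def Cov (m : ℕ) (T : Finset ι) : Finset (Finset (Finset ι)) :=
  ((T.powersetCard m).powerset).filter (fun F => F.sup id = T)

theorem sup_subset {m : ℕ} {T : Finset ι} {F : Finset (Finset ι)}
    (h : F ⊆ T.powersetCard m) : F.sup id ⊆ T := by
  have : F.sup id ≤ T := by
    refine Finset.sup_le fun I hI => ?_
    exact (Finset.mem_powersetCard.1 (h hI)).1
  exact this

theorem expand {R : Type*} [CommRing R] (m : ℕ) (T : Finset ι) (u : Finset ι → R) :
    ∑ Z ∈ T.powerset, (-1) ^ Z.card * ∏ I ∈ Z.powersetCard m, (1 + u I) =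
      (-1) ^ T.card * ∑ F ∈ Cov m T, ∏ I ∈ F, u I := by
  have h1 : ∀ Z ∈ T.powerset, (-1 : R) ^ Z.card * ∏ I ∈ Z.powersetCard m, (1 + u I) =
      ∑ F ∈ (Z.powersetCard m).powerset, (-1) ^ Z.card * ∏ I ∈ F, u I := by
    intro Z _
    rw [Finset.prod_one_add, Finset.mul_sum]
  rw [Finset.sum_congr rfl h1]
  rw [Finset.sum_comm' (t' := (T.powersetCard m).powerset)
    (s' := fun F => T.powerset.filter (fun Z => F.sup id ⊆ Z))]
  · have h2 : ∀ F ∈ (T.powersetCard m).powerset,
        ∑ Z ∈ T.powerset.filter (fun Z => F.sup id ⊆ Z), (-1 : R) ^ Z.card * ∏ I ∈ F, u I =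
          if F.sup id = T then (-1) ^ T.card * ∏ I ∈ F, u I else 0 := by
      intro F hF
      rw [← Finset.sum_mul]
      have h3 := sum_signs (F.sup id) T (sup_subset (Finset.mem_powerset.1 hF))
      have h4 : ∑ Z ∈ T.powerset.filter (fun Z => F.sup id ⊆ Z), (-1 : R) ^ Z.card =
          ((∑ Z ∈ T.powerset.filter (fun Z => F.sup id ⊆ Z), (-1 : ℤ) ^ Z.card : ℤ) : R) := by
        push_cast
        rfl
      rw [h4, h3]
      split_ifs <;> simp
    rw [Finset.sum_congr rfl h2, ← Finset.sum_filter, Finset.mul_sum]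
    rfl
  · intro Z F
    simp only [Finset.mem_powerset, Finset.mem_filter]
    constructor
    · rintro ⟨h2, h3⟩
      exact ⟨⟨h2, sup_subset h3⟩, h3.trans (Finset.powersetCard_mono h2)⟩
    · rintro ⟨⟨h2, h3⟩, h4⟩
      refine ⟨h2, fun I hI => ?_⟩
      rw [Finset.mem_powersetCard]
      exact ⟨(Finset.le_sup (f := id) hI).trans h3, (Finset.mem_powersetCard.1 (h4 hI)).2⟩

theorem double_count (m : ℕ) (T : Finset ι) (F : Finset (Finset ι)) (hF : F ∈ Cov m T) :
    ∑ i ∈ T, (F.filter (fun I => i ∈ I)).card = m * F.card := by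
  rw [Cov, Finset.mem_filter, Finset.mem_powerset] at hF
  have h1 : ∑ i ∈ T, (F.filter (fun I => i ∈ I)).card = ∑ I ∈ F, (T.filter (fun i => i ∈ I)).card :=
    Finset.sum_card_bipartiteAbove_eq_sum_card_bipartiteBelow (fun i I => i ∈ I)
  rw [h1, Finset.sum_congr rfl (g := fun _ => m), Finset.sum_const, smul_eq_mul, mul_comm]
  intro I hI
  have h2 := Finset.mem_powersetCard.1 (hF.1 hI)
  have h3 : T.filter (fun i => i ∈ I) = I := by
    ext i
    rw [Finset.mem_filter]
    exact ⟨fun h => h.2, fun h => ⟨h2.1 h, h⟩⟩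
  rw [h3, h2.2]

theorem one_le_mult (m : ℕ) (T : Finset ι) (F : Finset (Finset ι)) (hF : F ∈ Cov m T) :
    ∀ i ∈ T, 1 ≤ (F.filter (fun I => i ∈ I)).card := by
  intro i hi
  rw [Cov, Finset.mem_filter] at hF
  rw [← hF.2, Finset.mem_sup] at hi
  obtain ⟨I, hI, hiI⟩ := hi
  exact Finset.card_pos.2 ⟨I, Finset.mem_filter.2 ⟨hI, hiI⟩⟩

theorem card_le_cov (m : ℕ) (T : Finset ι) (F : Finset (Finset ι)) (hF : F ∈ Cov m T) :
    T.card ≤ m * F.card := by
  rw [← double_count m T F hF, Finset.card_eq_sum_ones]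
  exact Finset.sum_le_sum (one_le_mult m T F hF)

theorem mult_eq_one (m : ℕ) (T : Finset ι) (F : Finset (Finset ι)) (hF : F ∈ Cov m T)
    (h : m * F.card = T.card) : ∀ i ∈ T, (F.filter (fun I => i ∈ I)).card = 1 := by
  have h1 := double_count m T F hF
  rw [h, Finset.card_eq_sum_ones] at h1
  have h2 := (Finset.sum_eq_sum_iff_of_le (one_le_mult m T F hF)).1 h1.symm
  intro i hi
  exact (h2 i hi).symm

theorem sum_exact {M : Type*} [AddCommMonoid M] (m : ℕ) (T : Finset ι) (F : Finset (Finset ι))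
    (hF : F ∈ Cov m T) (h : m * F.card = T.card) (b : ι → M) :
    ∑ I ∈ F, ∑ i ∈ I, b i = ∑ i ∈ T, b i := by
  have hF2 := hF
  rw [Cov, Finset.mem_filter, Finset.mem_powerset] at hF2
  rw [Finset.sum_comm' (t' := T) (s' := fun i => F.filter (fun I => i ∈ I))]
  · refine Finset.sum_congr rfl fun i hi => ?_
    rw [Finset.sum_const, mult_eq_one m T F hF h i hi, one_smul]
  · intro I i
    rw [Finset.mem_filter]
    constructor
    · rintro ⟨h1, h2⟩
      exact ⟨⟨h1, h2⟩, (Finset.mem_powersetCard.1 (hF2.1 h1)).1 h2⟩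
    · rintro ⟨⟨h1, h2⟩, -⟩
      exact ⟨h1, h2⟩

theorem prod_exact {M : Type*} [CommMonoid M] (m : ℕ) (T : Finset ι) (F : Finset (Finset ι))
    (hF : F ∈ Cov m T) (h : m * F.card = T.card) (b : ι → M) :
    ∏ I ∈ F, ∏ i ∈ I, b i = ∏ i ∈ T, b i := by
  have hF2 := hF
  rw [Cov, Finset.mem_filter, Finset.mem_powerset] at hF2
  rw [Finset.prod_comm' (t' := T) (s' := fun i => F.filter (fun I => i ∈ I))]
  · refine Finset.prod_congr rfl fun i hi => ?_
    rw [Finset.prod_const, mult_eq_one m T F hF h i hi, pow_one]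
  · intro I i
    rw [Finset.mem_filter]
    constructor
    · rintro ⟨h1, h2⟩
      exact ⟨⟨h1, h2⟩, (Finset.mem_powersetCard.1 (hF2.1 h1)).1 h2⟩
    · rintro ⟨⟨h1, h2⟩, -⟩
      exact ⟨h1, h2⟩

/-- The partitions of `T` into `m`-subsets. -/
def Part (m : ℕ) (T : Finset ι) : Finset (Finset (Finset ι)) :=
  (Cov m T).filter (fun F => m * F.card = T.card)

theorem mem_Cov {m : ℕ} {T : Finset ι} {F : Finset (Finset ι)} :
    F ∈ Cov m T ↔ F ⊆ T.powersetCard m ∧ F.sup id = T := by
  rw [Cov, Finset.mem_filter, Finset.mem_powerset]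

theorem disj_of_part {m : ℕ} {T : Finset ι} {F : Finset (Finset ι)} (hF : F ∈ Part m T)
    {I J : Finset ι} (hI : I ∈ F) (hJ : J ∈ F) (hIJ : I ≠ J) : Disjoint I J := by
  rw [Part, Finset.mem_filter] at hF
  rw [Finset.disjoint_left]
  intro i hi hj
  have hiT : i ∈ T := (Finset.mem_powersetCard.1 ((mem_Cov.1 hF.1).1 hI)).1 hi
  have h1 := mult_eq_one m T F hF.1 hF.2 i hiT
  rw [Finset.card_eq_one] at h1
  obtain ⟨K, hK⟩ := h1
  have h2 : I ∈ F.filter (fun I => i ∈ I) := Finset.mem_filter.2 ⟨hI, hi⟩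
  have h3 : J ∈ F.filter (fun I => i ∈ I) := Finset.mem_filter.2 ⟨hJ, hj⟩
  rw [hK, Finset.mem_singleton] at h2 h3
  exact hIJ (h2.trans h3.symm)

theorem part_fiber (m : ℕ) (hm : 0 < m) (T : Finset ι) (I : Finset ι)
    (hI : I ∈ T.powersetCard m) :
    ((Part m T).filter (fun F => I ∈ F)).card = (Part m (T \ I)).card := by
  have hI' := Finset.mem_powersetCard.1 hI
  have hcard : (T \ I).card + m = T.card := by
    rw [← hI'.2, Finset.card_sdiff_add_card_eq_card hI'.1]
  refine Finset.card_nbij' (fun F => F.erase I) (fun F => insert I F) ?_ ?_ ?_ ?_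
  · intro F hF
    have hF' := Finset.mem_filter.1 hF
    have hP := Finset.mem_filter.1 hF'.1
    have hC := mem_Cov.1 hP.1
    have hsub : ∀ J ∈ F.erase I, J ⊆ T \ I := by
      intro J hJ
      have hJF := Finset.mem_of_mem_erase hJ
      have hd := disj_of_part hF'.1 hJF hF'.2 (Finset.ne_of_mem_erase hJ)
      intro i hi
      exact Finset.mem_sdiff.2 ⟨(Finset.mem_powersetCard.1 (hC.1 hJF)).1 hi,
        fun h => (Finset.disjoint_left.1 hd) hi h⟩
    refine Finset.mem_filter.2 ⟨mem_Cov.2 ⟨?_, ?_⟩, ?_⟩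
    · intro J hJ
      exact Finset.mem_powersetCard.2 ⟨hsub J hJ,
        (Finset.mem_powersetCard.1 (hC.1 (Finset.mem_of_mem_erase hJ))).2⟩
    · apply Finset.Subset.antisymm
      · have : (F.erase I).sup id ≤ T \ I := Finset.sup_le hsub
        exact this
      · intro i hi
        have hi' := Finset.mem_sdiff.1 hi
        have h1 : i ∈ F.sup id := by rw [hC.2]; exact hi'.1
        rw [Finset.mem_sup] at h1 ⊢
        obtain ⟨J, hJ, hiJ⟩ := h1
        exact ⟨J, Finset.mem_erase.2 ⟨fun h => hi'.2 (h ▸ hiJ), hJ⟩, hiJ⟩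
    · show m * (F.erase I).card = (T \ I).card
      have h1 : (F.erase I).card + 1 = F.card := Finset.card_erase_add_one hF'.2
      have h2 : m * ((F.erase I).card + 1) = T.card := by rw [h1]; exact hP.2
      rw [mul_add, mul_one] at h2
      omega
  · intro F hF
    have hP := Finset.mem_filter.1 hF
    have hC := mem_Cov.1 hP.1
    have hIF : I ∉ F := by
      intro h
      have h1 := (Finset.mem_powersetCard.1 (hC.1 h)).1
      have h2 : I.Nonempty := Finset.card_pos.1 (by rw [hI'.2]; exact hm)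
      obtain ⟨i, hi⟩ := h2
      exact (Finset.mem_sdiff.1 (h1 hi)).2 hi
    refine Finset.mem_filter.2 ⟨Finset.mem_filter.2 ⟨mem_Cov.2 ⟨?_, ?_⟩, ?_⟩,
      Finset.mem_insert_self I F⟩
    · intro J hJ
      rcases Finset.mem_insert.1 hJ with rfl | hJ
      · exact hI
      · have := Finset.mem_powersetCard.1 (hC.1 hJ)
        exact Finset.mem_powersetCard.2 ⟨this.1.trans Finset.sdiff_subset, this.2⟩
    · rw [Finset.sup_insert, hC.2]
      exact Finset.union_sdiff_of_subset hI'.1
    · rw [Finset.card_insert_of_notMem hIF, mul_add, mul_one, hP.2]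
      exact hcard
  · intro F hF
    exact Finset.insert_erase (Finset.mem_filter.1 hF).2
  · intro F hF
    have hP := Finset.mem_filter.1 hF
    have hC := mem_Cov.1 hP.1
    have hIF : I ∉ F := by
      intro h
      have h1 := (Finset.mem_powersetCard.1 (hC.1 h)).1
      have h2 : I.Nonempty := Finset.card_pos.1 (by rw [hI'.2]; exact hm)
      obtain ⟨i, hi⟩ := h2
      exact (Finset.mem_sdiff.1 (h1 hi)).2 hi
    exact Finset.erase_insert hIF

theorem part_rec (m : ℕ) (hm : 0 < m) (T : Finset ι) (x : ι) (hx : x ∈ T) :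
    (Part m T).card = ∑ I ∈ (T.powersetCard m).filter (fun I => x ∈ I), (Part m (T \ I)).card := by
  rw [Finset.sum_congr rfl fun I hI =>
    (part_fiber m hm T I (Finset.mem_filter.1 hI).1).symm]
  have h1 := Finset.sum_card_bipartiteAbove_eq_sum_card_bipartiteBelow
    (s := (T.powersetCard m).filter (fun I => x ∈ I)) (t := Part m T) (fun I F => I ∈ F)
  refine Eq.trans ?_ h1.symm
  rw [Finset.card_eq_sum_ones]
  refine Finset.sum_congr rfl fun F hF => ?_
  have hP := Finset.mem_filter.1 hF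
  have hC := mem_Cov.1 hP.1
  have h2 : Finset.bipartiteBelow (fun I F => I ∈ F) ((T.powersetCard m).filter (fun I => x ∈ I)) F =
      F.filter (fun I => x ∈ I) := by
    ext I
    simp only [Finset.bipartiteBelow, Finset.mem_filter]
    constructor
    · rintro ⟨⟨h3, h4⟩, h5⟩
      exact ⟨h5, h4⟩
    · rintro ⟨h3, h4⟩
      exact ⟨⟨hC.1 h3, h4⟩, h3⟩
  rw [h2, mult_eq_one m T F hP.1 hP.2 x hx]

theorem card_filter_mem (m : ℕ) (hm : 0 < m) (T : Finset ι) (x : ι) (hx : x ∈ T) :
    ((T.powersetCard m).filter (fun I => x ∈ I)).card = (T.card - 1).choose (m - 1) := by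
  have h1 : ((T.powersetCard m).filter (fun I => x ∈ I)).card =
      ((T.erase x).powersetCard (m - 1)).card := by
    refine Finset.card_nbij' (fun I => I.erase x) (fun I => insert x I) ?_ ?_ ?_ ?_
    · intro I hI
      have h := Finset.mem_filter.1 hI
      have h' := Finset.mem_powersetCard.1 h.1
      refine Finset.mem_powersetCard.2 ⟨Finset.erase_subset_erase x h'.1, ?_⟩
      rw [Finset.card_erase_of_mem h.2, h'.2]
    · intro I hI
      have h' := Finset.mem_powersetCard.1 hI
      have hxI : x ∉ I := fun h => (Finset.mem_erase.1 (h'.1 h)).1 rfl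
      refine Finset.mem_filter.2 ⟨Finset.mem_powersetCard.2 ⟨?_, ?_⟩, Finset.mem_insert_self x I⟩
      · exact Finset.insert_subset hx (h'.1.trans (Finset.erase_subset x T))
      · rw [Finset.card_insert_of_notMem hxI, h'.2]
        omega
    · intro I hI
      exact Finset.insert_erase (Finset.mem_filter.1 hI).2
    · intro I hI
      have h' := Finset.mem_powersetCard.1 hI
      have hxI : x ∉ I := fun h => (Finset.mem_erase.1 (h'.1 h)).1 rfl
      exact Finset.erase_insert hxI
  rw [h1, Finset.card_powersetCard, Finset.card_erase_of_mem hx]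

theorem choose_one (p : ℕ) [hp : Fact p.Prime] (s k : ℕ) :
    (((p ^ s * (k + 1) - 1).choose (p ^ s - 1) : ℕ) : ZMod p) = 1 := by
  have hq : 0 < p ^ s := pow_pos hp.out.pos s
  rw [← Polynomial.coeff_one_add_X_pow]
  have h1 : p ^ s * (k + 1) - 1 = p ^ s * k + (p ^ s - 1) := by
    rw [mul_add, mul_one]
    omega
  have h2 : (1 + X : (ZMod p)[X]) ^ (p ^ s * (k + 1) - 1) =
      (1 + X ^ (p ^ s)) ^ k * (1 + X) ^ (p ^ s - 1) := by
    rw [h1, pow_add, pow_mul, add_pow_char_pow, one_pow]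
  obtain ⟨W, hW⟩ : ∃ W : (ZMod p)[X], (1 + X ^ (p ^ s)) ^ k = 1 + X ^ (p ^ s) * W := by
    have : (X ^ (p ^ s) : (ZMod p)[X]) ∣ (1 + X ^ (p ^ s)) ^ k - 1 := by
      have h3 := sub_dvd_pow_sub_pow (1 + X ^ (p ^ s) : (ZMod p)[X]) 1 k
      rwa [add_sub_cancel_left, one_pow] at h3
    obtain ⟨W, hW⟩ := this
    exact ⟨W, by rw [← hW]; ring⟩
  rw [h2, hW, add_mul, one_mul, Polynomial.coeff_add, mul_assoc, Polynomial.coeff_X_pow_mul',
    if_neg (by omega), add_zero, Polynomial.coeff_one_add_X_pow, Nat.choose_self, Nat.cast_one]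

theorem card_Part (p : ℕ) [hp : Fact p.Prime] (s : ℕ) : ∀ (k : ℕ) (T : Finset ι),
    T.card = p ^ s * k → (((Part (p ^ s) T).card : ℕ) : ZMod p) = 1 := by
  have hq : 0 < p ^ s := pow_pos hp.out.pos s
  intro k
  induction k with
  | zero =>
    intro T hT
    rw [mul_zero, Finset.card_eq_zero] at hT
    subst hT
    have : Part (p ^ s) (∅ : Finset ι) = {∅} := by
      ext F
      rw [Part, Finset.mem_filter, mem_Cov, Finset.mem_singleton]
      constructor
      · rintro ⟨-, h⟩
        rw [Finset.card_empty] at h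
        rcases Nat.mul_eq_zero.1 h with h | h
        · omega
        · exact Finset.card_eq_zero.1 h
      · rintro rfl
        simp
    rw [this]; simp
  | succ k ih =>
    intro T hT
    have hpos : 0 < T.card := by rw [hT]; positivity
    obtain ⟨x, hx⟩ := Finset.card_pos.1 hpos
    rw [part_rec _ hq T x hx, Nat.cast_sum]
    have h1 : ∀ I ∈ (T.powersetCard (p ^ s)).filter (fun I => x ∈ I),
        (((Part (p ^ s) (T \ I)).card : ℕ) : ZMod p) = 1 := by
      intro I hI
      have hI' := Finset.mem_powersetCard.1 (Finset.mem_filter.1 hI).1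
      apply ih
      rw [Finset.card_sdiff_of_subset hI'.1, hI'.2, hT, mul_add, mul_one]
      omega
    rw [Finset.sum_congr rfl h1, Finset.sum_const, nsmul_eq_mul, mul_one,
      card_filter_mem _ hq T x hx, hT]
    exact choose_one p s k

end Diff

/-! ### The two main computations -/

section Main

variable {ι : Type*} [DecidableEq ι] (p : ℕ) [hp : Fact p.Prime]

/-- The signed count of the subsets of `T` whose symmetric sum is divisible by `q`. -/
noncomputable def D (q m : ℕ) (a : ι → ℕ) (T : Finset ι) : ZMod p :=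
  ∑ Z ∈ T.powerset, (-1) ^ Z.card * (if q ∣ esum m a Z then 1 else 0)

theorem lam_sign (q n : ℕ) (P : (ZMod p)[X]) :
    lam p q ((-1) ^ n * P) = (-1) ^ n * lam p q P := by
  rcases neg_one_pow_eq_or ((ZMod p)[X]) n with h | h <;>
    rcases neg_one_pow_eq_or (ZMod p) n with h' | h'
  · rw [h, h', one_mul, one_mul]
  · have h2 : ((-1 : (ZMod p)[X]) ^ n).coeff 0 = (-1 : ZMod p) ^ n := by
      have : (-1 : (ZMod p)[X]) ^ n = Polynomial.C ((-1) ^ n) := by simp
      rw [this, Polynomial.coeff_C_zero]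
    rw [h, h'] at h2
    rw [h, h', ← h2]
    simp
  · have h2 : ((-1 : (ZMod p)[X]) ^ n).coeff 0 = (-1 : ZMod p) ^ n := by
      have : (-1 : (ZMod p)[X]) ^ n = Polynomial.C ((-1) ^ n) := by simp
      rw [this, Polynomial.coeff_C_zero]
    rw [h, h'] at h2
    rw [h, h', ← h2]
    simp
  · rw [h, h', neg_one_mul, neg_one_mul, map_neg]

theorem D_eq (r m : ℕ) (a : ι → ℕ) (T : Finset ι) :
    D p (p ^ r) m a T = (-1) ^ T.card *
      ∑ F ∈ Cov m T, lam p (p ^ r) (∏ I ∈ F, ((1 + X) ^ (∏ i ∈ I, a i) - 1)) := by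
  have h1 := expand m T (fun I => (1 + X : (ZMod p)[X]) ^ (∏ i ∈ I, a i) - 1)
  have h2 := congrArg (lam p (p ^ r)) h1
  rw [map_sum, lam_sign, map_sum] at h2
  rw [← h2, D]
  refine Finset.sum_congr rfl fun Z _ => ?_
  rw [lam_sign, ← lam_pow p r]
  congr 2
  simp only [add_sub_cancel]
  rw [esum, Finset.prod_pow_eq_pow_sum]

theorem pow_form (c A : ℕ) : ∃ W : (ZMod p)[X],
    (1 + X ^ (c + 1)) ^ A = 1 + X ^ (c + 1) * W ∧ W.coeff 0 = (A : ZMod p) := by
  induction A with
  | zero => exact ⟨0, by simp, by simp⟩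
  | succ A ih =>
    obtain ⟨W, h1, h2⟩ := ih
    refine ⟨1 + W + X ^ (c + 1) * W, ?_, ?_⟩
    · rw [pow_succ, h1]; ring
    · rw [Polynomial.coeff_add, Polynomial.coeff_add, h2, Polynomial.coeff_one_zero,
        Polynomial.coeff_X_pow_mul', if_neg (by omega)]
      push_cast
      ring

theorem stepA (r m : ℕ) (hm : 0 < m) (a : ι → ℕ) (T : Finset ι)
    (hT : T.card = m * (p ^ r - 1)) :
    D p (p ^ r) m a T = (-1) ^ T.card * ((-1) ^ (p ^ r - 1) *
      (((Part m T).card : ZMod p) * ∏ i ∈ T, (a i : ZMod p))) := by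
  have hq : 0 < p ^ r := pow_pos hp.out.pos r
  rw [D_eq]
  congr 1
  have h1 : ∀ F ∈ Cov m T, lam p (p ^ r) (∏ I ∈ F, ((1 + X) ^ (∏ i ∈ I, a i) - 1)) =
      if m * F.card = T.card then (-1) ^ (p ^ r - 1) * ∏ i ∈ T, (a i : ZMod p) else 0 := by
    intro F hF
    have hw : ∀ I : Finset ι, ∃ W : (ZMod p)[X],
        (1 + X) ^ (∏ i ∈ I, a i) - 1 = X * W ∧ W.coeff 0 = ∏ i ∈ I, (a i : ZMod p) := by
      intro I
      obtain ⟨W, h1, h2⟩ := pow_form p 0 (∏ i ∈ I, a i)
      rw [zero_add, pow_one] at h1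
      refine ⟨W, by rw [h1]; ring, ?_⟩
      rw [h2, Nat.cast_prod]
    choose W hW1 hW2 using hw
    rw [Finset.prod_congr rfl fun I _ => hW1 I, Finset.prod_mul_distrib, Finset.prod_const]
    split_ifs with hc
    · have hF2 : F.card = p ^ r - 1 := by
        rw [hT] at hc
        exact Nat.eq_of_mul_eq_mul_left hm hc
      rw [hF2, lam_top p _ hq, ← prod_exact m T F hF hc (fun i => (a i : ZMod p))]
      congr 1
      have h3 : (∏ I ∈ F, W I).coeff 0 = ∏ I ∈ F, (W I).coeff 0 := by
        rw [← Polynomial.constantCoeff_apply, map_prod]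
        rfl
      rw [h3]
      exact Finset.prod_congr rfl fun I _ => hW2 I
    · apply lam_of_dvd
      have h4 := card_le_cov m T F hF
      have h5 : p ^ r ≤ F.card := by
        by_contra h6
        have h7 : F.card ≤ p ^ r - 1 := by omega
        have h8 : m * F.card ≤ m * (p ^ r - 1) := Nat.mul_le_mul_left m h7
        omega
      exact Dvd.dvd.mul_right (pow_dvd_pow X h5) _
  rw [Finset.sum_congr rfl h1, ← Finset.sum_filter, Finset.sum_const, nsmul_eq_mul]
  show ((Part m T).card : ZMod p) * _ = _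
  ring

theorem one_add_form {κ : Type*} [DecidableEq κ] (c : ℕ) (F : Finset κ) (w : κ → (ZMod p)[X]) :
    ∃ W : (ZMod p)[X], ∏ I ∈ F, (1 + X ^ (c + 1) * w I) = 1 + X ^ (c + 1) * W ∧
      W.coeff 0 = ∑ I ∈ F, (w I).coeff 0 := by
  induction F using Finset.induction_on with
  | empty => exact ⟨0, by simp, by simp⟩
  | insert I F hI ih =>
    obtain ⟨W, h1, h2⟩ := ih
    refine ⟨w I + W + X ^ (c + 1) * (w I * W), ?_, ?_⟩
    · rw [Finset.prod_insert hI, h1]; ring
    · rw [Finset.sum_insert hI, Polynomial.coeff_add, Polynomial.coeff_add, h2,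
        Polynomial.coeff_X_pow_mul', if_neg (by omega), add_zero]

theorem prod_form (j : ℕ) (hj : 1 ≤ j) (b : ι → ℕ) (I : Finset ι) : ∃ β : ℕ,
    ∏ i ∈ I, (1 + p ^ j * b i) = 1 + p ^ j * β ∧ (β : ZMod p) = ∑ i ∈ I, (b i : ZMod p) := by
  induction I using Finset.induction_on with
  | empty => exact ⟨0, by simp, by simp⟩
  | insert i I hi ih =>
    obtain ⟨β, h1, h2⟩ := ih
    refine ⟨b i + β + p ^ j * (b i * β), ?_, ?_⟩
    · rw [Finset.prod_insert hi, h1]; ring
    · rw [Finset.sum_insert hi]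
      push_cast
      rw [h2, CharP.cast_eq_zero (ZMod p) p, zero_pow (by omega), zero_mul, add_zero]

theorem stepB (r m j : ℕ) (hj : 1 ≤ j) (hjr : j < r) (hm : 0 < m) (b : ι → ℕ) (T : Finset ι)
    (hT : T.card = m * (p ^ r - p ^ j)) :
    D p (p ^ r) m (fun i => 1 + p ^ j * b i) T = D p (p ^ r) m (fun _ => 1) T +
      (-1) ^ T.card * ((-1) ^ (p ^ r - 1) *
        (((Part m T).card : ZMod p) * ∑ i ∈ T, (b i : ZMod p))) := by
  have hq : 0 < p ^ r := pow_pos hp.out.pos r
  have hpj : p ^ j < p ^ r := Nat.pow_lt_pow_right hp.out.one_lt hjr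
  have hpj2 : 2 ≤ p ^ j := le_trans hp.out.two_le (Nat.le_self_pow (by omega) p)
  rw [D_eq, D_eq, ← mul_add]
  congr 1
  have h1 : ∀ F ∈ Cov m T,
      lam p (p ^ r) (∏ I ∈ F, ((1 + X) ^ (∏ i ∈ I, (1 + p ^ j * b i)) - 1)) =
      lam p (p ^ r) (∏ I ∈ F, ((1 + X) ^ (∏ i ∈ I, (fun _ : ι => 1) i) - 1)) +
      if m * F.card = T.card then (-1) ^ (p ^ r - 1) * ∑ i ∈ T, (b i : ZMod p) else 0 := by
    intro F hF
    have hw : ∀ I : Finset ι, ∃ W : (ZMod p)[X],
        (1 + X) ^ (∏ i ∈ I, (1 + p ^ j * b i)) - 1 = X * (1 + X ^ (p ^ j - 2 + 1) * W) ∧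
          W.coeff 0 = ∑ i ∈ I, (b i : ZMod p) := by
      intro I
      obtain ⟨β, hβ1, hβ2⟩ := prod_form p j hj b I
      obtain ⟨W, h1, h2⟩ := pow_form p (p ^ j - 1) β
      have e1 : p ^ j - 1 + 1 = p ^ j := by omega
      rw [e1] at h1
      refine ⟨(1 + X) * W, ?_, ?_⟩
      · rw [hβ1, pow_add, pow_one, pow_mul, add_pow_char_pow, one_pow, h1]
        have e2 : (X : (ZMod p)[X]) ^ (p ^ j) = X * X ^ (p ^ j - 2 + 1) := by
          rw [← pow_succ']
          congr 1
          omega
        rw [e2]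
        ring
      · rw [Polynomial.mul_coeff_zero, h2, hβ2]
        simp
    choose W hW1 hW2 using hw
    obtain ⟨V, hV1, hV2⟩ := one_add_form p (p ^ j - 2) F W
    have e3 : ∏ I ∈ F, ((1 + X : (ZMod p)[X]) ^ (∏ i ∈ I, (fun _ : ι => 1) i) - 1) =
        X ^ F.card := by
      rw [← Finset.prod_const]
      refine Finset.prod_congr rfl fun I _ => ?_
      simp
    rw [e3, Finset.prod_congr rfl fun I _ => hW1 I, Finset.prod_mul_distrib, Finset.prod_const,
      hV1, mul_add, mul_one, map_add]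
    congr 1
    split_ifs with hc
    · have hF2 : F.card = p ^ r - p ^ j := by
        rw [hT] at hc
        exact Nat.eq_of_mul_eq_mul_left hm hc
      have e4 : (X : (ZMod p)[X]) ^ F.card * (X ^ (p ^ j - 2 + 1) * V) =
          X ^ (p ^ r - 1) * V := by
        rw [← mul_assoc, ← pow_add, hF2]
        congr 2
        omega
      rw [e4, lam_top p _ hq, hV2, ← sum_exact m T F hF hc (fun i => (b i : ZMod p))]
      congr 1
      exact Finset.sum_congr rfl fun I _ => hW2 I
    · apply lam_of_dvd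
      have h4 := card_le_cov m T F hF
      have h5 : p ^ r - p ^ j + 1 ≤ F.card := by
        by_contra h6
        have h7 : F.card ≤ p ^ r - p ^ j := by omega
        have h8 : m * F.card ≤ m * (p ^ r - p ^ j) := Nat.mul_le_mul_left m h7
        omega
      rw [← mul_assoc, ← pow_add]
      exact Dvd.dvd.mul_right (pow_dvd_pow X (by omega)) _
  rw [Finset.sum_congr rfl h1, Finset.sum_add_distrib]
  congr 1
  rw [← Finset.sum_filter, Finset.sum_const, nsmul_eq_mul]
  show ((Part m T).card : ZMod p) * _ = _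
  ring

omit [DecidableEq ι] in
/-- The value of `D` for sequences without zero subsequences. -/
theorem D_free (q m : ℕ) (a : ι → ℕ) (hfree : ∀ Z : Finset ι, m ≤ Z.card → ¬ q ∣ esum m a Z)
    (T : Finset ι) : D p q m a T =
      ∑ u ∈ Finset.range (T.card + 1), T.card.choose u • ((-1) ^ u * if u < m then 1 else 0) := by
  rw [D, ← Finset.sum_powerset_apply_card]
  refine Finset.sum_congr rfl fun Z _ => ?_
  congr 1
  by_cases h : Z.card < m
  · rw [if_pos h, if_pos]
    rw [esum, Finset.powersetCard_eq_empty.2 h, Finset.sum_empty]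
    exact dvd_zero q
  · rw [if_neg h, if_neg (hfree Z (not_lt.1 h))]

omit [DecidableEq ι] in
theorem D_one (q m : ℕ) (T : Finset ι) : D p q m (fun _ => 1) T =
    ∑ u ∈ Finset.range (T.card + 1), T.card.choose u •
      ((-1) ^ u * if q ∣ u.choose m then 1 else 0) := by
  rw [D, ← Finset.sum_powerset_apply_card]
  refine Finset.sum_congr rfl fun Z _ => ?_
  congr 1
  have : esum m (fun _ => 1) Z = Z.card.choose m := by
    simp [esum]
  rw [this]

theorem kappa (s k : ℕ) :
    ∑ u ∈ Finset.range (p ^ s * (k + 1) + 1), (p ^ s * (k + 1)).choose u •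
      ((-1 : ZMod p) ^ u * if u < p ^ s then 1 else 0) = 1 := by
  have h1 := lam_pow p s (p ^ s * (k + 1))
  rw [if_pos (Dvd.intro _ rfl), lam_apply] at h1
  refine Eq.trans ?_ h1
  have h2 : Finset.range (p ^ s) ⊆ Finset.range (p ^ s * (k + 1) + 1) := by
    apply Finset.range_subset_range.2
    have : p ^ s ≤ p ^ s * (k + 1) := Nat.le_mul_of_pos_right _ (by omega)
    omega
  rw [← Finset.sum_subset h2]
  · refine Finset.sum_congr rfl fun u hu => ?_
    rw [if_pos (Finset.mem_range.1 hu), Polynomial.coeff_one_add_X_pow, nsmul_eq_mul, mul_one,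
      mul_comm]
  · intro u _ hu
    rw [if_neg (fun h => hu (Finset.mem_range.2 h)), mul_zero, smul_zero]

omit [DecidableEq ι] in
theorem D_free_congr (q m : ℕ) (a : ι → ℕ) (hfree : ∀ Z : Finset ι, m ≤ Z.card → ¬ q ∣ esum m a Z)
    (T T' : Finset ι) (h : T.card = T'.card) : D p q m a T = D p q m a T' := by
  rw [D_free p q m a hfree, D_free p q m a hfree, h]

omit [DecidableEq ι] in
theorem D_one_congr (q m : ℕ) (T T' : Finset ι) (h : T.card = T'.card) :
    D p q m (fun _ => 1) T = D p q m (fun _ => 1) T' := by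
  rw [D_one, D_one, h]

/-- Two distinct indices can be exchanged inside subsets of prescribed size. -/
theorem exists_swap [Fintype ι] (i i' : ι) (hii : i ≠ i') (N : ℕ) (h : N + 2 ≤ Fintype.card ι) :
    ∃ R : Finset ι, i ∉ R ∧ i' ∉ R ∧ R.card = N := by
  have h1 : ((Finset.univ : Finset ι) \ {i, i'}).card = Fintype.card ι - 2 := by
    rw [Finset.card_sdiff_of_subset (Finset.subset_univ _), Finset.card_univ,
      Finset.card_pair hii]
  obtain ⟨R, hR, hc⟩ := Finset.exists_subset_card_eq (s := (Finset.univ : Finset ι) \ {i, i'})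
    (n := N) (by omega)
  refine ⟨R, fun hi => ?_, fun hi => ?_, hc⟩
  · have := Finset.mem_sdiff.1 (hR hi)
    simp at this
  · have := Finset.mem_sdiff.1 (hR hi)
    simp at this

/-- All terms are congruent modulo `p` and not divisible by `p`. -/
theorem first_step [Fintype ι] (r s : ℕ) (hr : 1 ≤ r) (hs : 1 ≤ s)
    (hcard : Fintype.card ι = p ^ s * p ^ r - 1) (a : ι → ℕ)
    (hfree : ∀ Z : Finset ι, p ^ s ≤ Z.card → ¬ p ^ r ∣ esum (p ^ s) a Z) :
    (∀ i, (a i : ZMod p) ≠ 0) ∧ ∀ i i', (a i : ZMod p) = a i' := by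
  have hq : 2 ≤ p ^ r := le_trans hp.out.two_le (Nat.le_self_pow (by omega) p)
  have hm : 2 ≤ p ^ s := le_trans hp.out.two_le (Nat.le_self_pow (by omega) p)
  obtain ⟨k, hk⟩ : ∃ k, p ^ r = k + 2 := ⟨p ^ r - 2, by omega⟩
  have key : ∀ T : Finset ι, T.card = p ^ s * (p ^ r - 1) →
      (-1 : ZMod p) ^ T.card * ((-1) ^ (p ^ r - 1) * ∏ i ∈ T, (a i : ZMod p)) = 1 := by
    intro T hT
    have h1 := stepA p r (p ^ s) (by omega) a T hT
    have h2 := card_Part p s (p ^ r - 1) T hT
    rw [D_free p _ _ a hfree T, h2, one_mul] at h1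
    rw [← h1, hT]
    have h3 := kappa p s k
    have h4 : p ^ r - 1 = k + 1 := by omega
    rw [h4]
    exact h3
  have hlt : p ^ s * (p ^ r - 1) + 1 ≤ p ^ s * p ^ r - 1 := by
    rw [hk]
    have : k + 2 - 1 = k + 1 := by omega
    rw [this]
    have e : p ^ s * (k + 2) = p ^ s * (k + 1) + p ^ s := by ring
    rw [e]
    omega
  have hpos : 1 ≤ p ^ s * (p ^ r - 1) := Nat.mul_pos (by omega) (by omega)
  have hne : ∀ i, (a i : ZMod p) ≠ 0 := by
    intro i hi
    obtain ⟨T, hT1, hT2⟩ : ∃ T : Finset ι, i ∈ T ∧ T.card = p ^ s * (p ^ r - 1) := by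
      obtain ⟨T, h1, h2, h3⟩ := Finset.exists_subsuperset_card_eq
        (s := ({i} : Finset ι)) (t := Finset.univ) (n := p ^ s * (p ^ r - 1))
        (Finset.subset_univ _) (by rw [Finset.card_singleton]; exact hpos)
        (by rw [Finset.card_univ, hcard]; omega)
      exact ⟨T, h1 (Finset.mem_singleton_self i), h3⟩
    have h1 := key T hT2
    rw [Finset.prod_eq_zero hT1 hi, mul_zero, mul_zero] at h1
    exact zero_ne_one h1
  refine ⟨hne, fun i i' => ?_⟩
  by_cases hii : i = i'
  · rw [hii]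
  · obtain ⟨R, h1, h2, h3⟩ := exists_swap i i' hii (p ^ s * (p ^ r - 1) - 1) (by omega)
    have c1 : (insert i R).card = p ^ s * (p ^ r - 1) := by
      rw [Finset.card_insert_of_notMem h1, h3]; omega
    have c2 : (insert i' R).card = p ^ s * (p ^ r - 1) := by
      rw [Finset.card_insert_of_notMem h2, h3]; omega
    have k1 := (key _ c1).trans (key _ c2).symm
    rw [c1, c2, Finset.prod_insert h1, Finset.prod_insert h2] at k1
    have hR : ∏ j ∈ R, (a j : ZMod p) ≠ 0 := Finset.prod_ne_zero_iff.2 fun j _ => hne j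
    have s1 : (-1 : ZMod p) ^ (p ^ s * (p ^ r - 1)) ≠ 0 := pow_ne_zero _ (by simp)
    have s2 : (-1 : ZMod p) ^ (p ^ r - 1) ≠ 0 := pow_ne_zero _ (by simp)
    exact mul_right_cancel₀ hR (mul_left_cancel₀ s2 (mul_left_cancel₀ s1 k1))

/-- The inductive step for sequences whose terms are `1` modulo `p ^ j`. -/
theorem next_step [Fintype ι] (r s j : ℕ) (hj : 1 ≤ j) (hjr : j < r) (hs : 1 ≤ s)
    (hcard : Fintype.card ι = p ^ s * p ^ r - 1) (b : ι → ℕ)
    (hfree : ∀ Z : Finset ι, p ^ s ≤ Z.card →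
      ¬ p ^ r ∣ esum (p ^ s) (fun i => 1 + p ^ j * b i) Z) :
    ∀ i i', (b i : ZMod p) = b i' := by
  have hm : 2 ≤ p ^ s := le_trans hp.out.two_le (Nat.le_self_pow (by omega) p)
  have hpj : p ^ j < p ^ r := Nat.pow_lt_pow_right hp.out.one_lt hjr
  have hpj2 : 2 ≤ p ^ j := le_trans hp.out.two_le (Nat.le_self_pow (by omega) p)
  have hlt : p ^ s * (p ^ r - p ^ j) + 1 ≤ p ^ s * p ^ r - 1 := by
    obtain ⟨k, hk⟩ : ∃ k, p ^ r = k + p ^ j := ⟨p ^ r - p ^ j, by omega⟩
    rw [hk, Nat.add_sub_cancel, mul_add]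
    have : 2 * 2 ≤ p ^ s * p ^ j := Nat.mul_le_mul hm hpj2
    omega
  have hpos : 1 ≤ p ^ s * (p ^ r - p ^ j) := Nat.mul_pos (by omega) (by omega)
  intro i i'
  by_cases hii : i = i'
  · rw [hii]
  · obtain ⟨R, h1, h2, h3⟩ := exists_swap i i' hii (p ^ s * (p ^ r - p ^ j) - 1) (by omega)
    have c1 : (insert i R).card = p ^ s * (p ^ r - p ^ j) := by
      rw [Finset.card_insert_of_notMem h1, h3]; omega
    have c2 : (insert i' R).card = p ^ s * (p ^ r - p ^ j) := by
      rw [Finset.card_insert_of_notMem h2, h3]; omega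
    have k1 := stepB p r (p ^ s) j hj hjr (by omega) b _ c1
    have k2 := stepB p r (p ^ s) j hj hjr (by omega) b _ c2
    rw [D_free_congr p _ _ _ hfree (insert i R) (insert i' R) (c1.trans c2.symm), k2,
      D_one_congr p _ _ (insert i R) (insert i' R) (c1.trans c2.symm), card_Part p s _ _ c1,
      card_Part p s _ _ c2, c1, c2, one_mul, one_mul, Finset.sum_insert h1,
      Finset.sum_insert h2] at k1
    have s1 : (-1 : ZMod p) ^ (p ^ s * (p ^ r - p ^ j)) ≠ 0 := pow_ne_zero _ (by simp)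
    have s2 : (-1 : ZMod p) ^ (p ^ r - 1) ≠ 0 := pow_ne_zero _ (by simp)
    exact (add_right_cancel (mul_left_cancel₀ s2 (mul_left_cancel₀ s1 (add_left_cancel k1)))).symm

end Main

/-! ### Passing to residues -/

section Residues

variable {ι : Type*} [DecidableEq ι] (p : ℕ) [hp : Fact p.Prime]

omit [DecidableEq ι] in
theorem cast_esum (q m : ℕ) (a : ι → ℕ) (Z : Finset ι) :
    ((esum m a Z : ℕ) : ZMod q) = ∑ I ∈ Z.powersetCard m, ∏ i ∈ I, (a i : ZMod q) := by
  rw [esum]
  push_cast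
  rfl

omit [DecidableEq ι] in
theorem free_iff (q m : ℕ) (a : ι → ℕ) (Z : Finset ι) :
    q ∣ esum m a Z ↔ ∑ I ∈ Z.powersetCard m, ∏ i ∈ I, (a i : ZMod q) = 0 := by
  rw [← cast_esum, ZMod.natCast_eq_zero_iff]

/-- If all terms agree modulo `p ^ j` and one is a unit, they agree modulo `p ^ (j + 1)`. -/
theorem lift_step [Fintype ι] (r s j : ℕ) (hj : 1 ≤ j) (hjr : j < r) (hs : 1 ≤ s)
    (hcard : Fintype.card ι = p ^ s * p ^ r - 1) (x : ι → ZMod (p ^ r))
    (hfree : ∀ Z : Finset ι, p ^ s ≤ Z.card →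
      ∑ I ∈ Z.powersetCard (p ^ s), ∏ i ∈ I, x i ≠ 0)
    (i₀ : ι) (hu : IsUnit (x i₀)) (h : ∀ i, (p : ZMod (p ^ r)) ^ j ∣ x i - x i₀) :
    ∀ i, (p : ZMod (p ^ r)) ^ (j + 1) ∣ x i - x i₀ := by
  have : NeZero (p ^ r) := ⟨(pow_pos hp.out.pos r).ne'⟩
  obtain ⟨u, hu⟩ := hu
  have hy : ∀ i, ∃ b : ℕ, (↑u⁻¹ : ZMod (p ^ r)) * x i = 1 + (p : ZMod (p ^ r)) ^ j * (b : ZMod _) := by
    intro i
    obtain ⟨t, ht⟩ := h i
    refine ⟨(↑u⁻¹ * t : ZMod (p ^ r)).val, ?_⟩
    rw [ZMod.natCast_val, ZMod.cast_id]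
    have : x i = x i₀ + (p : ZMod (p ^ r)) ^ j * t := by rw [← ht]; ring
    rw [this, ← hu, mul_add, Units.inv_mul]
    ring
  choose b hb using hy
  have hfree2 : ∀ Z : Finset ι, p ^ s ≤ Z.card →
      ¬ p ^ r ∣ esum (p ^ s) (fun i => 1 + p ^ j * b i) Z := by
    intro Z hZ hd
    rw [free_iff] at hd
    apply hfree Z hZ
    have h1 : ∀ I ∈ Z.powersetCard (p ^ s), ∏ i ∈ I, (((1 + p ^ j * b i : ℕ) : ZMod (p ^ r))) =
        (↑u⁻¹ : ZMod (p ^ r)) ^ (p ^ s) * ∏ i ∈ I, x i := by
      intro I hI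
      have hc := (Finset.mem_powersetCard.1 hI).2
      have h2 : ∀ i ∈ I, (((1 + p ^ j * b i : ℕ) : ZMod (p ^ r))) = ↑u⁻¹ * x i := by
        intro i _
        rw [hb i]
        push_cast
        rfl
      rw [Finset.prod_congr rfl h2, Finset.prod_mul_distrib, Finset.prod_const, hc]
    rw [Finset.sum_congr rfl h1, ← Finset.mul_sum] at hd
    have h3 := congrArg (fun z => (u : ZMod (p ^ r)) ^ (p ^ s) * z) hd
    simp only [mul_zero] at h3
    rw [← mul_assoc, ← mul_pow, Units.mul_inv, one_pow, one_mul] at h3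
    exact h3
  have h4 := next_step p r s j hj hjr hs hcard b hfree2
  intro i
  have h5 := h4 i i₀
  rw [← Int.cast_natCast (R := ZMod p) (b i), ← Int.cast_natCast (R := ZMod p) (b i₀),
    ZMod.intCast_eq_intCast_iff, Int.modEq_comm, Int.modEq_iff_dvd] at h5
  obtain ⟨z, hz⟩ := h5
  refine ⟨(u : ZMod (p ^ r)) * (z : ZMod (p ^ r)), ?_⟩
  have e1 : x i = (u : ZMod (p ^ r)) * (1 + (p : ZMod (p ^ r)) ^ j * (b i : ZMod _)) := by
    rw [← hb i, ← mul_assoc, Units.mul_inv, one_mul]
  have e2 : x i₀ = (u : ZMod (p ^ r)) * (1 + (p : ZMod (p ^ r)) ^ j * (b i₀ : ZMod _)) := by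
    rw [← hb i₀, ← mul_assoc, Units.mul_inv, one_mul]
  have e3 : (b i : ZMod (p ^ r)) - (b i₀ : ZMod (p ^ r)) = (p : ZMod (p ^ r)) * (z : ZMod _) := by
    have := congrArg (fun z : ℤ => (z : ZMod (p ^ r))) hz
    push_cast at this
    exact this
  have e4 : x i - x i₀ = (u : ZMod (p ^ r)) * (p : ZMod (p ^ r)) ^ j *
      ((b i : ZMod (p ^ r)) - (b i₀ : ZMod (p ^ r))) := by
    rw [e1, e2]; ring
  rw [e4, e3]
  ring

theorem isUnit_of_ne (r : ℕ) (x : ZMod (p ^ r)) (h : ((x.val : ℕ) : ZMod p) ≠ 0) :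
    IsUnit x := by
  have : NeZero (p ^ r) := ⟨(pow_pos hp.out.pos r).ne'⟩
  have h1 : ¬ p ∣ x.val := fun hd => h ((ZMod.natCast_eq_zero_iff _ _).2 hd)
  have h2 : Nat.Coprime x.val (p ^ r) :=
    Nat.Coprime.pow_right r ((Nat.Prime.coprime_iff_not_dvd hp.out).2 h1).symm
  have h3 := (ZMod.isUnit_iff_coprime x.val (p ^ r)).2 h2
  rwa [ZMod.natCast_val, ZMod.cast_id] at h3

/-- The case `s ≥ 1`, indexed form. -/
theorem main_pos [Fintype ι] (r s : ℕ) (hr : 1 ≤ r) (hs : 1 ≤ s)
    (hcard : Fintype.card ι = p ^ s * p ^ r - 1) (x : ι → ZMod (p ^ r))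
    (hfree : ∀ Z : Finset ι, p ^ s ≤ Z.card →
      ∑ I ∈ Z.powersetCard (p ^ s), ∏ i ∈ I, x i ≠ 0) (i₀ : ι) :
    IsUnit (x i₀) ∧ ∀ i, x i = x i₀ := by
  have : NeZero (p ^ r) := ⟨(pow_pos hp.out.pos r).ne'⟩
  have hx : ∀ i, (((x i).val : ℕ) : ZMod (p ^ r)) = x i := by
    intro i
    rw [ZMod.natCast_val, ZMod.cast_id]
  have hfree1 : ∀ Z : Finset ι, p ^ s ≤ Z.card → ¬ p ^ r ∣ esum (p ^ s) (fun i => (x i).val) Z := by
    intro Z hZ hd
    rw [free_iff] at hd
    apply hfree Z hZ
    rw [← hd]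
    refine Finset.sum_congr rfl fun I _ => Finset.prod_congr rfl fun i _ => (hx i).symm
  obtain ⟨h1, h2⟩ := first_step p r s hr hs hcard (fun i => (x i).val) hfree1
  have hu : IsUnit (x i₀) := isUnit_of_ne p r _ (h1 i₀)
  refine ⟨hu, ?_⟩
  have key : ∀ j, 1 ≤ j → j ≤ r → ∀ i, (p : ZMod (p ^ r)) ^ j ∣ x i - x i₀ := by
    intro j hj
    induction j, hj using Nat.le_induction with
    | base =>
      intro _ i
      have h3 := h2 i i₀
      rw [← Int.cast_natCast (R := ZMod p) (x i).val, ← Int.cast_natCast (R := ZMod p) (x i₀).val,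
        ZMod.intCast_eq_intCast_iff, Int.modEq_comm, Int.modEq_iff_dvd] at h3
      obtain ⟨z, hz⟩ := h3
      refine ⟨(z : ZMod (p ^ r)), ?_⟩
      have := congrArg (fun z : ℤ => (z : ZMod (p ^ r))) hz
      push_cast at this
      rw [hx, hx] at this
      rw [this, pow_one]
    | succ j hj ih =>
      intro hjr
      exact lift_step p r s j hj (by omega) hs hcard x hfree i₀ hu (ih (by omega))
  intro i
  have h3 := key r hr le_rfl i
  have h4 : (p : ZMod (p ^ r)) ^ r = 0 := by
    have := ZMod.natCast_self (p ^ r)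
    push_cast at this
    exact this
  rw [h4, zero_dvd_iff, sub_eq_zero] at h3
  exact h3

end Residues

/-! ### The case `m = 1` -/

/-- Two terms of a zero-sum free sequence of length `n - 1` over `Z_n` are equal. -/
theorem classical_pair (n : ℕ) [NeZero n] (x y : ZMod n) (l : List (ZMod n))
    (hl : l.length + 2 = n - 1)
    (hfree : ∀ l' : List (ZMod n), l'.Sublist (x :: y :: l) → l' ≠ [] → l'.sum ≠ 0) : x = y := by
  set L := x :: y :: l with hL
  have hlen : L.length = n - 1 := by rw [hL]; simp only [List.length_cons]; omega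
  have hinj : Function.Injective (fun k : Fin n => (L.take k.1).sum) := by
    have main : ∀ j k : Fin n, j.1 < k.1 → (L.take j.1).sum ≠ (L.take k.1).sum := by
      intro j k hjk h
      have e : L.take k.1 = L.take j.1 ++ (L.take k.1).drop j.1 := by
        conv_lhs => rw [← List.take_append_drop j.1 (L.take k.1)]
        rw [List.take_take, min_eq_left hjk.le]
      rw [e, List.sum_append] at h
      have h2 : ((L.take k.1).drop j.1).sum = 0 := by
        have := congrArg (fun z => z - (L.take j.1).sum) h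
        simpa using this.symm
      refine hfree _ ((List.drop_sublist _ _).trans (List.take_sublist _ _)) ?_ h2
      intro h3
      have h4 := congrArg List.length h3
      rw [List.length_drop, List.length_take, List.length_nil] at h4
      have := k.2
      omega
    intro j k h
    rcases lt_trichotomy j.1 k.1 with h1 | h1 | h1
    · exact absurd h (main j k h1)
    · exact Fin.ext h1
    · exact absurd h.symm (main k j h1)
  have hsurj : Function.Surjective (fun k : Fin n => (L.take k.1).sum) := by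
    refine ((Fintype.bijective_iff_injective_and_card _).2 ⟨hinj, ?_⟩).2
    rw [Fintype.card_fin, ZMod.card]
  obtain ⟨k, hk⟩ := hsurj y
  have hk' : (L.take k.1).sum = y := hk
  rcases hk1 : k.1 with _ | _ | t
  · rw [hk1, List.take_zero, List.sum_nil] at hk'
    exfalso
    refine hfree [y] ?_ (by simp) (by simp [← hk'])
    rw [hL]
    exact List.Sublist.cons _ (List.Sublist.cons_cons _ (List.nil_sublist _))
  · rw [hk1] at hk'
    simpa [hL] using hk'
  · rw [hk1] at hk'
    have h1 : x + (y + (l.take t).sum) = y := by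
      simpa [hL] using hk'
    exfalso
    refine hfree (x :: l.take t) ?_ (by simp) ?_
    · rw [hL]
      exact List.Sublist.cons_cons _ (List.Sublist.cons _ (List.take_sublist _ _))
    · rw [List.sum_cons]
      have := congrArg (fun z => z - y) h1
      simp only [sub_self] at this
      rw [← this]; ring

theorem zmultiples_of_isUnit (n : ℕ) [NeZero n] (a : ZMod n) (h : IsUnit a) :
    AddSubgroup.zmultiples a = ⊤ := by
  obtain ⟨u, rfl⟩ := h
  rw [eq_top_iff]
  intro z _
  rw [AddSubgroup.mem_zmultiples_iff]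
  refine ⟨((z * (↑u⁻¹ : ZMod n)).val : ℤ), ?_⟩
  rw [zsmul_eq_mul, Int.cast_natCast, ZMod.natCast_val, ZMod.cast_id, mul_assoc, Units.inv_mul,
    mul_one]

theorem esymm_one' {R : Type*} [CommSemiring R] (T : Multiset R) : T.esymm 1 = T.sum := by
  rw [Multiset.esymm, Multiset.powersetCard_one, Multiset.map_map]
  simp

/-- Let `p` be a prime, `r ≥ 1`, `s ≥ 0`, `q = p ^ r` and `m = p ^ s`. Every `m`-zero free sequence
of length `m q - 1` over `Z_q` is of the form `(a, ..., a)` for an additive generator `a` of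
`Z_q`. -/
theorem result (p : ℕ) (hp : p.Prime) (r s : ℕ) (hr : 1 ≤ r) (S : Multiset (ZMod (p ^ r)))
    (hlen : S.card = p ^ s * p ^ r - 1)
    (hfree : ∀ T ≤ S, p ^ s ≤ T.card → T.esymm (p ^ s) ≠ 0) :
    ∃ a : ZMod (p ^ r), AddSubgroup.zmultiples a = ⊤ ∧
      S = Multiset.replicate (p ^ s * p ^ r - 1) a := by
  have hpf : Fact p.Prime := ⟨hp⟩
  have hq0 : 0 < p ^ r := pow_pos hp.pos r
  have hne : NeZero (p ^ r) := ⟨hq0.ne'⟩
  have hq : 2 ≤ p ^ r := le_trans hp.two_le (Nat.le_self_pow (by omega) p)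
  have hm0 : 0 < p ^ s := pow_pos hp.pos s
  have hpos : 0 < S.card := by
    have : 1 * 2 ≤ p ^ s * p ^ r := Nat.mul_le_mul hm0 hq
    omega
  suffices h : ∃ a : ZMod (p ^ r), IsUnit a ∧ ∀ b ∈ S, b = a by
    obtain ⟨a, h1, h2⟩ := h
    exact ⟨a, zmultiples_of_isUnit _ a h1, Multiset.eq_replicate.2 ⟨hlen, h2⟩⟩
  rcases Nat.eq_zero_or_pos s with hs | hs
  · subst hs
    rw [pow_zero, one_mul] at hlen
    have hfree' : ∀ T ≤ S, T ≠ 0 → T.sum ≠ 0 := by
      intro T hT h0
      have := hfree T hT (by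
        rw [pow_zero]
        exact Multiset.card_pos.2 h0)
      rwa [pow_zero, esymm_one'] at this
    obtain ⟨a, ha⟩ := Multiset.card_pos_iff_exists_mem.1 hpos
    have hall : ∀ b ∈ S, b = a := by
      intro b hb
      by_contra hba
      obtain ⟨R, hR⟩ := Multiset.exists_cons_of_mem ha
      rw [hR, Multiset.mem_cons] at hb
      rcases hb with hb | hb
      · exact hba hb
      obtain ⟨R', hR'⟩ := Multiset.exists_cons_of_mem hb
      induction R' using Quotient.inductionOn with
      | h l =>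
        have hS : S = ((a :: b :: l : List (ZMod (p ^ r))) : Multiset _) := by
          rw [hR, hR']; rfl
        refine hba (classical_pair (p ^ r) a b l ?_ ?_).symm
        · have h1 : (a :: b :: l).length = p ^ r - 1 := by
            rw [← hlen, hS]; rfl
          simpa using h1
        · intro l' hl' hne'
          have h1 := hfree' (l' : Multiset _) (by
            rw [hS]; exact Multiset.coe_le.2 hl'.subperm) (by
            intro h0
            exact hne' ((Multiset.coe_eq_zero _).1 h0))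
          rwa [Multiset.sum_coe] at h1
    refine ⟨a, ?_, hall⟩
    apply isUnit_of_ne p r
    intro h0
    rw [ZMod.natCast_eq_zero_iff] at h0
    obtain ⟨t, ht⟩ := h0
    have hrep : S = Multiset.replicate (p ^ r - 1) a := Multiset.eq_replicate.2 ⟨hlen, hall⟩
    have e1 : p ^ r = p ^ (r - 1) * p := by
      rw [← pow_succ]
      congr 1
      omega
    have hlt : p ^ (r - 1) ≤ p ^ r - 1 := by
      have h2 : p ^ (r - 1) < p ^ r := Nat.pow_lt_pow_right hp.one_lt (by omega)
      omega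
    refine hfree' (Multiset.replicate (p ^ (r - 1)) a) ?_ ?_ ?_
    · rw [hrep]
      exact (Multiset.replicate_le_replicate a).2 hlt
    · intro h2
      have h3 := congrArg Multiset.card h2
      rw [Multiset.card_replicate, Multiset.card_zero] at h3
      exact absurd h3 (pow_pos hp.pos _).ne'
    · rw [Multiset.sum_replicate, nsmul_eq_mul]
      have h4 : a = ((a.val : ℕ) : ZMod (p ^ r)) := by rw [ZMod.natCast_val, ZMod.cast_id]
      rw [h4, ← Nat.cast_mul, ZMod.natCast_eq_zero_iff, ht, ← mul_assoc, ← e1]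
      exact Dvd.intro _ rfl
  · induction S using Quotient.inductionOn with
    | h l =>
      have hl : l.length = p ^ s * p ^ r - 1 := hlen
      have hl0 : 0 < l.length := hpos
      have hfree2 : ∀ Z : Finset (Fin l.length), p ^ s ≤ Z.card →
          ∑ I ∈ Z.powersetCard (p ^ s), ∏ i ∈ I, l.get i ≠ 0 := by
        intro Z hZ
        rw [← Finset.esymm_map_val]
        apply hfree
        · have e1 : Z.val.map l.get ≤ (Finset.univ : Finset (Fin l.length)).val.map l.get :=
            Multiset.map_le_map (Finset.val_le_iff.2 (Finset.subset_univ Z))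
          have e2 : (Finset.univ : Finset (Fin l.length)).val.map l.get =
              ((l : List (ZMod (p ^ r))) : Multiset _) := by
            rw [Fin.univ_val_map, List.ofFn_get]
          rw [e2] at e1
          exact e1
        · rw [Multiset.card_map]
          exact hZ
      obtain ⟨h1, h2⟩ := main_pos p r s hr hs (by rw [Fintype.card_fin]; exact hl) l.get hfree2
        ⟨0, hl0⟩
      refine ⟨_, h1, ?_⟩
      intro b hb
      have hb' : b ∈ l := hb
      obtain ⟨i, hi⟩ := List.mem_iff_get.1 hb'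
      rw [← hi]
      exact h2 i

end Pool.Agent.Results.MP_e23efd_co.ExtremalSequences
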